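import Pool.Agent.N437.SPC.Stm

/-!
# SPC/SO: combination of EN and INC (helper887, for helper437)
-/

set_option autoImplicit false

namespace Pool.Agent.N887.SPC

open Finset Pool.Agent.N437.SPC

theorem card_le_of_cnt {H P : Finset ℝ} (y : ℝ) :
    cnt (fun a b => a + b) y H P ≤ P.card := by
  unfold cnt
  apply Finset.card_le_card_of_injOn (fun u => y + u)
  · intro u hu
    have := (Finset.mem_filter.1 (Finset.mem_coe.1 hu)).2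
    exact this
  · intro u _ v _ huv
    exact add_left_cancel huv

theorem arith1 {h p q r k L : ℕ} (he : 81 * h ^ 4 ≤ 100 * q * (r * (16 * k ^ 2) * L))
    (hi : r ^ 3 * h ^ 2 * k ^ 6 ≤ 10 ^ 10 * L * p ^ 8) :
    h ^ 14 ≤ 10 ^ 14 * L ^ 4 * p ^ 8 * q ^ 3 := by
  have h1 : (81 * h ^ 4) ^ 3 ≤ (100 * q * (r * (16 * k ^ 2) * L)) ^ 3 := Nat.pow_le_pow_left he 3
  have h2 : 81 ^ 3 * h ^ 14 ≤ 1600 ^ 3 * q ^ 3 * L ^ 3 * (r ^ 3 * h ^ 2 * k ^ 6) := by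
    calc 81 ^ 3 * h ^ 14 = (81 * h ^ 4) ^ 3 * h ^ 2 := by ring
      _ ≤ (100 * q * (r * (16 * k ^ 2) * L)) ^ 3 * h ^ 2 := Nat.mul_le_mul_right _ h1
      _ = 1600 ^ 3 * q ^ 3 * L ^ 3 * (r ^ 3 * h ^ 2 * k ^ 6) := by ring
  have h3 : 81 ^ 3 * h ^ 14 ≤ 1600 ^ 3 * q ^ 3 * L ^ 3 * (10 ^ 10 * L * p ^ 8) :=
    h2.trans (Nat.mul_le_mul_left _ hi)
  have h4 : 1600 ^ 3 * q ^ 3 * L ^ 3 * (10 ^ 10 * L * p ^ 8) ≤
      81 ^ 3 * (10 ^ 14 * L ^ 4 * p ^ 8 * q ^ 3) := by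
    have e1 : 1600 ^ 3 * q ^ 3 * L ^ 3 * (10 ^ 10 * L * p ^ 8) =
        (1600 ^ 3 * 10 ^ 10) * (L ^ 4 * p ^ 8 * q ^ 3) := by ring
    have e2 : 81 ^ 3 * (10 ^ 14 * L ^ 4 * p ^ 8 * q ^ 3) =
        (81 ^ 3 * 10 ^ 14) * (L ^ 4 * p ^ 8 * q ^ 3) := by ring
    rw [e1, e2]
    exact Nat.mul_le_mul_right _ (by norm_num)
  exact Nat.le_of_mul_le_mul_left (h3.trans h4) (by norm_num)

theorem arith2 {h p q L : ℕ} (hL : 1 ≤ L) (he : 81 * h ^ 2 ≤ 800 * q * L)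
    (hp : 9 * h ≤ 10 * p) : h ^ 14 ≤ 10 ^ 14 * L ^ 4 * p ^ 8 * q ^ 3 := by
  have h1 : (81 * h ^ 2) ^ 3 ≤ (800 * q * L) ^ 3 := Nat.pow_le_pow_left he 3
  have h2 : (9 * h) ^ 8 ≤ (10 * p) ^ 8 := Nat.pow_le_pow_left hp 8
  have h3 : (81 * h ^ 2) ^ 3 * (9 * h) ^ 8 ≤ (800 * q * L) ^ 3 * (10 * p) ^ 8 :=
    Nat.mul_le_mul h1 h2
  have h4 : (800 * q * L) ^ 3 * (10 * p) ^ 8 ≤ (800 * q * L) ^ 3 * (10 * p) ^ 8 * L :=
    Nat.le_mul_of_pos_right _ hL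
  have h5 : 81 ^ 3 * 9 ^ 8 * h ^ 14 ≤ 800 ^ 3 * 10 ^ 8 * (L ^ 4 * p ^ 8 * q ^ 3) := by
    calc 81 ^ 3 * 9 ^ 8 * h ^ 14 = (81 * h ^ 2) ^ 3 * (9 * h) ^ 8 := by ring
      _ ≤ (800 * q * L) ^ 3 * (10 * p) ^ 8 * L := h3.trans h4
      _ = 800 ^ 3 * 10 ^ 8 * (L ^ 4 * p ^ 8 * q ^ 3) := by ring
  have h6 : 800 ^ 3 * 10 ^ 8 * (L ^ 4 * p ^ 8 * q ^ 3) ≤
      81 ^ 3 * 9 ^ 8 * (10 ^ 14 * L ^ 4 * p ^ 8 * q ^ 3) := by
    have e2 : 81 ^ 3 * 9 ^ 8 * (10 ^ 14 * L ^ 4 * p ^ 8 * q ^ 3) =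
        (81 ^ 3 * 9 ^ 8 * 10 ^ 14) * (L ^ 4 * p ^ 8 * q ^ 3) := by ring
    rw [e2]
    exact Nat.mul_le_mul_right _ (by norm_num)
  exact Nat.le_of_mul_le_mul_left (h5.trans h6) (by norm_num)

theorem t_SO (h1 : S_EN) (h2 : S_INC) : S_SO := by
  intro H P Q h0 hP hQ
  rcases Finset.eq_empty_or_nonempty H with rfl | hne
  · simp
  obtain ⟨R, j, hR, hr, he⟩ := h1 H Q h0 hne hQ
  obtain ⟨y, hy⟩ := hne
  have hpos : 0 < H.card := Finset.card_pos.2 ⟨y, hy⟩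
  by_cases hj : 2 ≤ j
  · obtain ⟨i, rfl⟩ : ∃ i, j = i + 1 := ⟨j - 1, by omega⟩
    have hk : 2 ≤ 2 ^ i := by
      calc 2 = 2 ^ 1 := rfl
        _ ≤ 2 ^ i := Nat.pow_le_pow_right (by norm_num) (by omega)
    have hi := h2 H P R (2 ^ i) h0 hk hP (fun l hl => ⟨(hR l hl).1, by
      have := (hR l hl).2
      rwa [pow_succ, mul_comm] at this⟩)
    apply arith1 (k := 2 ^ i) (r := R.card) _ hi
    have e : 4 ^ (i + 1 + 1) = 16 * (2 ^ i) ^ 2 := by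
      rw [pow_succ, pow_succ, ← pow_mul, mul_comm i 2, pow_mul]
      norm_num
      ring
    rwa [e] at he
  · have hj1 : j ≤ 1 := by omega
    have h3 : R.card * 4 ^ (j + 1) ≤ 8 * H.card ^ 2 := by
      have e : 4 ^ (j + 1) = 2 ^ j * 2 ^ j * 4 := by
        rw [pow_succ, ← mul_pow]
        norm_num
      have h4 : 2 ^ j ≤ 2 := by
        calc 2 ^ j ≤ 2 ^ 1 := Nat.pow_le_pow_right (by norm_num) hj1
          _ = 2 := rfl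
      calc R.card * 4 ^ (j + 1) = (R.card * 2 ^ j) * (2 ^ j) * 4 := by rw [e]; ring
        _ ≤ H.card ^ 2 * 2 * 4 := by gcongr
        _ = _ := by ring
    have h5 : 81 * H.card ^ 2 ≤ 800 * Q.card * (Nat.log 2 H.card + 1) := by
      have h6 : 81 * H.card ^ 4 ≤ 100 * Q.card * (8 * H.card ^ 2 * (Nat.log 2 H.card + 1)) := by
        refine he.trans ?_
        gcongr
      have h7 : H.card ^ 2 * (81 * H.card ^ 2) ≤
          H.card ^ 2 * (800 * Q.card * (Nat.log 2 H.card + 1)) := by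
        calc H.card ^ 2 * (81 * H.card ^ 2) = 81 * H.card ^ 4 := by ring
          _ ≤ _ := h6
          _ = _ := by ring
      exact Nat.le_of_mul_le_mul_left h7 (by positivity)
    have h8 : 9 * H.card ≤ 10 * P.card :=
      (hP y hy).trans (Nat.mul_le_mul_left _ (card_le_of_cnt y))
    exact arith2 (by omega) h5 h8

end Pool.Agent.N887.SPC

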